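import Mathlib

/-!
# A space with the fixed point property whose second symmetric product does not have it

`E` is a union of countably many closed segments of the plane with a common end point, where the
other end points have no accumulation point in `E`. A continuous self-map of `E` has a fixed
point. The second symmetric product `E(2)` contains a closed ray, and we give a fixed point free
map of `E(2)` into this ray.
-/

set_option autoImplicit false

namespace Pool.Agent.Results.MP_3eb21e_gt.SymmetricSquareNoFpp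

open Set Topology

/-- The fixed point property. -/
def FixedPointProperty (X : Type) [TopologicalSpace X] : Prop :=
  ∀ f : X → X, Continuous f → ∃ x, f x = x

/-- The `n`-th symmetric product of `E`: the set of all nonempty subsets of `E` with at most `n`
elements. -/
def SymProd (E : Type) (n : ℕ) : Type := {A : Set E // A.Nonempty ∧ A.encard ≤ n}

/-- The sets `A` that are contained in `u 1 ∪ ... ∪ u n` and meet every `u i`. -/
def basic {E : Type} {n : ℕ} (u : Fin n → Set E) : Set (SymProd E n) :=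
  {A | A.1 ⊆ ⋃ i, u i ∧ ∀ i, (A.1 ∩ u i).Nonempty}

/-- The topology of the symmetric product: the sets `basic u`, for open sets `u 1, ..., u n`, are
open (and they form a base). -/
instance {E : Type} [TopologicalSpace E] (n : ℕ) : TopologicalSpace (SymProd E n) :=
  TopologicalSpace.generateFrom
    {S | ∃ u : Fin n → Set E, (∀ i, IsOpen (u i)) ∧ S = basic u}

/-- The `m`-th leg is the segment from `(0, 0)` to `(1, 1 / (m + 1))`; `Hog` is the union of all
legs. -/
def Hog : Set (ℝ × ℝ) := {p | 0 ≤ p.1 ∧ p.1 ≤ 1 ∧ ∃ m : ℕ, p.2 = p.1 / (m + 1)}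

/-! ### The fixed point property of `Hog` -/

/-- the point at height `t` on leg `m` -/
noncomputable def pt (m : ℕ) (t : ℝ) (h0 : 0 ≤ t) (h1 : t ≤ 1) : Hog :=
  ⟨(t, t / (m + 1)), h0, h1, m, rfl⟩

/-- collapse all legs but the `m`-th -/
noncomputable def ret (m : ℕ) (a : Hog) : ℝ :=
  max 0 (a.1.1 - (m + 2) * |a.1.2 * (m + 1) - a.1.1|)

theorem ret_continuous (m : ℕ) : Continuous (ret m) := by
  unfold ret
  fun_prop

theorem ret_nonneg (m : ℕ) (a : Hog) : 0 ≤ ret m a := le_max_left _ _

theorem ret_le_one (m : ℕ) (a : Hog) : ret m a ≤ 1 := by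
  unfold ret
  have h1 := a.2.2.1
  have h2 : 0 ≤ ((m : ℝ) + 2) * |a.1.2 * (m + 1) - a.1.1| := by positivity
  exact max_le zero_le_one (by linarith)

/-- the value on the legs -/
theorem ret_leg (m : ℕ) (a : Hog) (h : a.1.2 = a.1.1 / (m + 1)) : ret m a = a.1.1 := by
  unfold ret
  have h1 : a.1.2 * (m + 1) - a.1.1 = 0 := by
    rw [h]; field_simp; ring
  rw [h1, abs_zero, mul_zero, sub_zero]
  exact max_eq_right a.2.1

theorem ret_off (m j : ℕ) (hj : j ≠ m) (a : Hog) (h : a.1.2 = a.1.1 / (j + 1)) :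
    ret m a = 0 := by
  unfold ret
  apply max_eq_left
  have h0 : 0 ≤ a.1.1 := a.2.1
  have hj0 : (0 : ℝ) < j + 1 := by positivity
  have e1 : a.1.2 * (m + 1) - a.1.1 = a.1.1 * ((m - j) / (j + 1)) := by
    rw [h]; field_simp; ring
  rw [e1, abs_mul, abs_of_nonneg h0, abs_div, abs_of_pos hj0]
  have key : 1 ≤ ((m : ℝ) + 2) * (|(m : ℝ) - j| / (j + 1)) := by
    rw [mul_div_assoc', le_div_iff₀ hj0, one_mul]
    rcases lt_or_gt_of_ne hj with hlt | hgt
    · have h2 : (j : ℝ) + 1 ≤ m := by exact_mod_cast hlt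
      rw [abs_of_nonneg (by linarith)]
      nlinarith
    · have h2 : (m : ℝ) + 1 ≤ j := by exact_mod_cast hgt
      rw [abs_of_nonpos (by linarith)]
      nlinarith
  nlinarith

theorem eq_pt_of_ret (m : ℕ) (a : Hog) (t : ℝ) (h0 : 0 ≤ t) (h1 : t ≤ 1) (ht : 0 < t)
    (h : ret m a = t) : a = pt m t h0 h1 := by
  obtain ⟨j, hj⟩ := a.2.2.2
  by_cases hjm : j = m
  · subst hjm
    have h2 := ret_leg j a hj
    have h3 : a.1.1 = t := by rw [← h2, h]
    apply Subtype.ext
    apply Prod.ext
    · exact h3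
    · change a.1.2 = t / (j + 1)
      rw [hj, h3]
  · rw [ret_off m j hjm a hj] at h
    exact absurd h ht.ne

theorem hog_fpp : FixedPointProperty Hog := by
  intro f hf
  obtain ⟨m, hm⟩ := (f (pt 0 0 le_rfl zero_le_one)).2.2.2
  by_cases h0 : (f (pt 0 0 le_rfl zero_le_one)).1.1 = 0
  · refine ⟨pt 0 0 le_rfl zero_le_one, ?_⟩
    apply Subtype.ext
    apply Prod.ext
    · exact h0
    · rw [hm, h0]; simp [pt]
  · -- the leg which contains the image of the origin
    let ι : Icc (0 : ℝ) 1 → Hog := fun t => pt m t.1 t.2.1 t.2.2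
    have hι : Continuous ι := by
      apply Continuous.subtype_mk
      fun_prop
    let g : Icc (0 : ℝ) 1 → ℝ := fun t => ret m (f (ι t))
    have hg : Continuous g := (ret_continuous m).comp (hf.comp hι)
    have hz : ι ⟨0, le_rfl, zero_le_one⟩ = pt 0 0 le_rfl zero_le_one := by
      apply Subtype.ext
      simp [ι, pt]
    have hg0 : 0 < g ⟨0, le_rfl, zero_le_one⟩ := by
      simp only [g]
      rw [hz, ret_leg m _ hm]
      exact lt_of_le_of_ne (f _).2.1 (Ne.symm h0)
    have hex : ∃ t : Icc (0 : ℝ) 1, g t = t.1 := by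
      have hcont : Continuous (fun t : Icc (0 : ℝ) 1 => t.1 - g t) := by fun_prop
      have h1 : (fun t : Icc (0 : ℝ) 1 => t.1 - g t) ⟨0, le_rfl, zero_le_one⟩ ≤ 0 := by
        simp only; linarith
      have h2 : 0 ≤ (fun t : Icc (0 : ℝ) 1 => t.1 - g t) ⟨1, zero_le_one, le_rfl⟩ := by
        have := ret_le_one m (f (ι ⟨1, zero_le_one, le_rfl⟩))
        simp only [g]; linarith
      obtain ⟨t, ht⟩ := mem_range_of_exists_le_of_exists_ge hcont ⟨_, h1⟩ ⟨_, h2⟩
      exact ⟨t, by simp only at ht; linarith⟩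
    obtain ⟨t, ht⟩ := hex
    have htpos : 0 < t.1 := by
      rcases t.2.1.eq_or_lt with h | h
      · exfalso
        have : t = ⟨0, le_rfl, zero_le_one⟩ := Subtype.ext h.symm
        rw [this] at ht
        simp only at ht
        linarith
      · exact h
    exact ⟨ι t, eq_pt_of_ret m (f (ι t)) t.1 t.2.1 t.2.2 htpos ht⟩

/-! ### The ray -/

/-- bump functions -/
noncomputable def bump (m : ℕ) (s : ℝ) : ℝ := max 0 (min 1 (2 - 2 * |s - 2 * m - 1 / 2|))

theorem bump_continuous (m : ℕ) : Continuous (bump m) := by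
  unfold bump
  fun_prop

theorem bump_nonneg (m : ℕ) (s : ℝ) : 0 ≤ bump m s := le_max_left _ _

theorem bump_le_one (m : ℕ) (s : ℝ) : bump m s ≤ 1 := max_le zero_le_one (min_le_left _ _)

theorem bump_eq_zero (m : ℕ) (s : ℝ) (h : 1 ≤ |s - 2 * m - 1 / 2|) : bump m s = 0 := by
  apply max_eq_left
  exact (min_le_right _ _).trans (by linarith)

theorem bump_eq_one (m : ℕ) (s : ℝ) (h1 : 2 * (m : ℝ) ≤ s) (h2 : s ≤ 2 * m + 1) :
    bump m s = 1 := by
  have h3 : |s - 2 * m - 1 / 2| ≤ 1 / 2 := by rw [abs_le]; constructor <;> linarith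
  unfold bump
  rw [min_eq_left (by linarith)]
  exact max_eq_right zero_le_one

/-- the leg used at time `s` -/
noncomputable def idx (s : ℝ) : ℕ := ⌊(s + 1 / 2) / 2⌋₊

theorem bump_off (s : ℝ) (j : ℕ) (hj : j ≠ idx s) : bump j s = 0 := by
  apply bump_eq_zero
  rcases lt_or_gt_of_ne hj with hlt | hgt
  · have h1 : j + 1 ≤ idx s := hlt
    have h2 : ((j + 1 : ℕ) : ℝ) ≤ (s + 1 / 2) / 2 := by
      apply (Nat.le_floor_iff' (by omega)).mp h1
    push_cast at h2
    rw [le_abs]; left; linarith
  · have h1 : (s + 1 / 2) / 2 < j := (Nat.floor_lt' (by omega)).mp hgt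
    rw [le_abs]; right; linarith

theorem bump_locallyFinite : LocallyFinite fun m : ℕ => Function.support (bump m) := by
  intro s
  refine ⟨Ioo (s - 1) (s + 1), Ioo_mem_nhds (by linarith) (by linarith), ?_⟩
  refine (Set.finite_le_nat (⌈s + 2⌉₊)).subset ?_
  rintro m ⟨x, hx1, hx2⟩
  by_contra hcon
  have h1 : ⌈s + 2⌉₊ < m := not_le.mp hcon
  have h2 : s + 2 < m := (Nat.le_ceil _).trans_lt (by exact_mod_cast h1)
  apply hx1
  apply bump_eq_zero
  have h3 : (0 : ℝ) ≤ m := Nat.cast_nonneg m
  rw [le_abs]; right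
  have := hx2.2
  linarith

/-- the path in `Hog`: in the time from `2 m` to `2 m + 1` it rests at the end of leg `m`, in the
time from `2 m + 1` to `2 m + 2` it goes through the origin to the end of leg `m + 1` -/
noncomputable def path (s : ℝ) : Hog :=
  ⟨(bump (idx s) s, bump (idx s) s / (idx s + 1)), bump_nonneg _ _, bump_le_one _ _, idx s, rfl⟩

theorem path_continuous : Continuous path := by
  apply Continuous.subtype_mk
  apply Continuous.prodMk
  · have h1 : (fun s => bump (idx s) s) = fun s => ∑ᶠ m, bump m s := by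
      funext s
      rw [finsum_eq_single _ (idx s) (fun j hj => bump_off s j hj)]
    rw [h1]
    exact continuous_finsum bump_continuous bump_locallyFinite
  · have h1 : (fun s => bump (idx s) s / (idx s + 1)) =
        fun s => ∑ᶠ m : ℕ, bump m s / ((m : ℝ) + 1) := by
      funext s
      rw [finsum_eq_single _ (idx s) (fun j hj => by rw [bump_off s j hj, zero_div])]
    rw [h1]
    refine continuous_finsum (fun m => (bump_continuous m).div_const _) ?_
    refine bump_locallyFinite.subset fun m x hx => ?_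
    intro h2
    exact hx (by simp only [h2, zero_div])

/-! ### The function `u` -/

/-- height above `1 / 2` -/
noncomputable def tau (a : Hog) : ℝ := max 0 (2 * a.1.1 - 1)

theorem tau_continuous : Continuous tau := by
  unfold tau
  fun_prop

theorem tau_nonneg (a : Hog) : 0 ≤ tau a := le_max_left _ _

theorem tau_le_one (a : Hog) : tau a ≤ 1 := max_le zero_le_one (by linarith [a.2.2.1])

/-- `2 (m + 1)` times the height above `1 / 2` on leg `m` -/
noncomputable def wt (a : Hog) : ℝ := tau a * (2 * (a.1.1 / a.1.2))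

theorem snd_pos (a : Hog) (h : 0 < a.1.1) : 0 < a.1.2 := by
  obtain ⟨m, hm⟩ := a.2.2.2
  rw [hm]; positivity

theorem wt_continuous : Continuous wt := by
  rw [continuous_iff_continuousAt]
  intro a
  by_cases h : a.1.1 < 1 / 2
  · have h1 : ∀ᶠ b in 𝓝 a, wt b = 0 := by
      have h2 : IsOpen {b : Hog | b.1.1 < 1 / 2} :=
        isOpen_lt (by fun_prop) continuous_const
      filter_upwards [h2.mem_nhds h] with b hb
      have hb' : b.1.1 < 1 / 2 := hb
      have h3 : tau b = 0 := max_eq_left (by linarith)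
      rw [wt, h3, zero_mul]
    have h4 : wt =ᶠ[𝓝 a] fun _ => (0 : ℝ) := h1
    exact continuousAt_const.congr h4.symm
  · have h2 := snd_pos a (by linarith)
    have h3 : ContinuousAt (fun b : Hog => b.1.1 / b.1.2) a :=
      ContinuousAt.div (by fun_prop) (by fun_prop) h2.ne'
    exact (tau_continuous.continuousAt).mul (continuousAt_const.mul h3)

theorem wt_leg (m : ℕ) (a : Hog) (h : a.1.2 = a.1.1 / (m + 1)) :
    wt a = tau a * (2 * (m + 1)) := by
  by_cases h0 : a.1.1 = 0
  · have h1 : tau a = 0 := max_eq_left (by rw [h0]; norm_num)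
    rw [wt, h1, zero_mul, zero_mul]
  · rw [wt, h]
    congr 2
    field_simp

theorem wt_nonneg (a : Hog) : 0 ≤ wt a := by
  obtain ⟨m, hm⟩ := a.2.2.2
  rw [wt_leg m a hm]
  have := tau_nonneg a
  positivity

/-- the function on pairs -/
noncomputable def uu (p : Hog × Hog) : ℝ :=
  wt p.1 + wt p.2 - (wt p.1 * tau p.2 + tau p.1 * wt p.2) / 2

theorem uu_continuous : Continuous uu := by
  have h1 := wt_continuous
  have h2 := tau_continuous
  unfold uu
  fun_prop

theorem uu_symm (a b : Hog) : uu (a, b) = uu (b, a) := by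
  unfold uu; ring

theorem uu_nonneg (a b : Hog) : 0 ≤ uu (a, b) := by
  have h1 := wt_nonneg a
  have h2 := wt_nonneg b
  have h3 := tau_le_one a
  have h4 := tau_le_one b
  unfold uu
  nlinarith [mul_nonneg h1 (sub_nonneg.mpr h4), mul_nonneg h2 (sub_nonneg.mpr h3)]

/-- lower bound for `u` if one of the points is the end of leg `m` -/
theorem uu_tip (m k : ℕ) (a b : Hog) (ha : a.1.1 = 1) (ha2 : a.1.2 = a.1.1 / (m + 1))
    (hk : b.1.2 = b.1.1 / (k + 1)) (hmk : m ≤ k + 1) : 2 * (m : ℝ) + 1 ≤ uu (a, b) := by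
  have h1 : tau a = 1 := by rw [tau, ha]; norm_num
  have h2 : wt a = 2 * (m + 1) := by rw [wt_leg m a ha2, h1, one_mul]
  have h3 := wt_leg k b hk
  have h4 := tau_nonneg b
  have h5 := tau_le_one b
  have h6 : (m : ℝ) ≤ k + 1 := by exact_mod_cast hmk
  unfold uu
  simp only
  rw [h1, h2, h3]
  nlinarith [mul_nonneg h4 (sub_nonneg.mpr h6)]

theorem uu_tip' (m k : ℕ) (a b : Hog) (ha : a.1.1 = 1) (ha2 : a.1.2 = a.1.1 / (m + 1))
    (hk : b.1.2 = b.1.1 / (k + 1)) (hmk : m ≤ k) : 2 * (m : ℝ) + 2 ≤ uu (a, b) := by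
  have h1 : tau a = 1 := by rw [tau, ha]; norm_num
  have h2 : wt a = 2 * (m + 1) := by rw [wt_leg m a ha2, h1, one_mul]
  have h3 := wt_leg k b hk
  have h4 := tau_nonneg b
  have h5 := tau_le_one b
  have h6 : (m : ℝ) ≤ k := by exact_mod_cast hmk
  unfold uu
  simp only
  rw [h1, h2, h3]
  nlinarith [mul_nonneg h4 (sub_nonneg.mpr h6)]

theorem path_snd (s : ℝ) : (path s).1.2 = (path s).1.1 / (idx s + 1) := rfl

theorem path_tip (m : ℕ) (s : ℝ) (h1 : 2 * (m : ℝ) ≤ s) (h2 : s ≤ 2 * m + 1) :
    idx s = m ∧ (path s).1.1 = 1 := by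
  have h3 : idx s = m := by
    unfold idx
    rw [Nat.floor_eq_iff (by have : (0 : ℝ) ≤ m := Nat.cast_nonneg m; linarith)]
    constructor <;> linarith
  refine ⟨h3, ?_⟩
  change bump (idx s) s = 1
  rw [h3]
  exact bump_eq_one m s h1 h2

theorem idx_mono {s t : ℝ} (h : s ≤ t) : idx s ≤ idx t :=
  Nat.floor_mono (by linarith)

/-- along the ray, `u` is larger than the time -/
theorem uu_path (s : ℝ) : s < uu (path s, path (s + 1)) := by
  rcases lt_or_ge s 0 with hs | hs
  · exact hs.trans_le (uu_nonneg _ _)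
  · obtain ⟨m, hm1, hm2⟩ : ∃ m : ℕ, 2 * (m : ℝ) ≤ s ∧ s < 2 * m + 2 := by
      refine ⟨⌊s / 2⌋₊, ?_, ?_⟩
      · have := Nat.floor_le (show 0 ≤ s / 2 by positivity)
        linarith
      · have := Nat.lt_floor_add_one (s / 2)
        linarith
    rcases le_or_gt s (2 * m + 1) with h | h
    · -- the first point rests at the end of leg `m`
      obtain ⟨h3, h4⟩ := path_tip m s hm1 h
      have h5 : m ≤ idx (s + 1) := by rw [← h3]; exact idx_mono (by linarith)
      have h6 := path_snd s
      rw [h3] at h6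
      have := uu_tip' m (idx (s + 1)) (path s) (path (s + 1)) h4 h6 (path_snd _) h5
      linarith
    · -- the second point rests at the end of leg `m + 1`
      obtain ⟨h3, h4⟩ := path_tip (m + 1) (s + 1) (by push_cast; linarith)
        (by push_cast; linarith)
      obtain ⟨h7, -⟩ := path_tip m (2 * m + 1) (by linarith) le_rfl
      have h5 : m ≤ idx s := by
        have := idx_mono h.le
        rwa [h7] at this
      have h6 := path_snd (s + 1)
      rw [h3] at h6
      have := uu_tip (m + 1) (idx s) (path (s + 1)) (path s) h4 h6 (path_snd _) (by omega)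
      rw [uu_symm]
      push_cast at this
      linarith

/-! ### The symmetric square -/

section square
variable {E : Type}

/-- the unordered pair -/
def pair (p : E × E) : SymProd E 2 :=
  ⟨{p.1, p.2}, ⟨p.1, by simp⟩, by
    refine (Set.encard_insert_le _ _).trans ?_
    rw [Set.encard_singleton]
    norm_num⟩

theorem pair_surjective : Function.Surjective (pair : E × E → SymProd E 2) := by
  rintro ⟨A, ⟨a, ha⟩, hA⟩
  by_cases h : ∃ b ∈ A, b ≠ a
  · obtain ⟨b, hb, hba⟩ := h
    refine ⟨(a, b), Subtype.ext ?_⟩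
    change ({a, b} : Set E) = A
    have h1 : ({a, b} : Set E) ⊆ A := by
      rintro x (rfl | rfl) <;> assumption
    have h2 : ({a, b} : Set E).encard = 2 := Set.encard_pair (Ne.symm hba)
    refine (Set.toFinite ({a, b} : Set E)).eq_of_subset_of_encard_le h1 ?_
    rw [h2]
    exact_mod_cast hA
  · push Not at h
    refine ⟨(a, a), Subtype.ext ?_⟩
    change ({a, a} : Set E) = A
    ext x
    constructor
    · rintro (rfl | rfl) <;> exact ha
    · intro hx; left; exact h x hx

variable [TopologicalSpace E]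

theorem pair_continuous : Continuous (pair : E × E → SymProd E 2) := by
  rw [continuous_generateFrom_iff]
  rintro S ⟨u, hu, rfl⟩
  have h1 : (pair ⁻¹' (basic u) : Set (E × E)) =
      {p | (p.1 ∈ u 0 ∨ p.1 ∈ u 1) ∧ (p.2 ∈ u 0 ∨ p.2 ∈ u 1)} ∩
        ({p | p.1 ∈ u 0 ∨ p.2 ∈ u 0} ∩ {p | p.1 ∈ u 1 ∨ p.2 ∈ u 1}) := by
    ext ⟨a, b⟩
    constructor
    · rintro ⟨h1, h2⟩
      have ha := h1 (show a ∈ ({a, b} : Set E) by simp)
      have hb := h1 (show b ∈ ({a, b} : Set E) by simp)
      rw [Set.mem_iUnion, Fin.exists_fin_two] at ha hb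
      refine ⟨⟨ha, hb⟩, ?_, ?_⟩
      · obtain ⟨x, rfl | rfl, hx⟩ := h2 0
        · left; exact hx
        · right; exact hx
      · obtain ⟨x, rfl | rfl, hx⟩ := h2 1
        · left; exact hx
        · right; exact hx
    · rintro ⟨⟨ha, hb⟩, h3, h4⟩
      refine ⟨?_, ?_⟩
      · rintro x (rfl | rfl)
        · rw [Set.mem_iUnion, Fin.exists_fin_two]; exact ha
        · rw [Set.mem_iUnion, Fin.exists_fin_two]; exact hb
      · rw [Fin.forall_fin_two]
        constructor
        · rcases h3 with h | h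
          · exact ⟨a, by left; rfl, h⟩
          · exact ⟨b, by right; rfl, h⟩
        · rcases h4 with h | h
          · exact ⟨a, by left; rfl, h⟩
          · exact ⟨b, by right; rfl, h⟩
  rw [h1]
  have f1 : ∀ i, IsOpen {p : E × E | p.1 ∈ u i} := fun i => (hu i).preimage continuous_fst
  have f2 : ∀ i, IsOpen {p : E × E | p.2 ∈ u i} := fun i => (hu i).preimage continuous_snd
  exact ((((f1 0).union (f1 1))).inter ((f2 0).union (f2 1))).inter
    (((f1 0).union (f2 0)).inter ((f1 1).union (f2 1)))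

theorem pair_isOpenMap : IsOpenMap (pair : E × E → SymProd E 2) := by
  intro W hW
  rw [isOpen_iff_mem_nhds]
  rintro _ ⟨⟨a, b⟩, hp, rfl⟩
  obtain ⟨U, V, hU, hV, ha, hb, hUV⟩ := isOpen_prod_iff.mp hW a b hp
  have h1 : IsOpen (basic ![U, V] : Set (SymProd E 2)) := by
    apply TopologicalSpace.isOpen_generateFrom_of_mem
    refine ⟨![U, V], ?_, rfl⟩
    rw [Fin.forall_fin_two]
    exact ⟨hU, hV⟩
  have h2 : pair (a, b) ∈ (basic ![U, V] : Set (SymProd E 2)) := by
    constructor
    · rintro x (rfl | rfl)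
      · rw [Set.mem_iUnion, Fin.exists_fin_two]; left; exact ha
      · rw [Set.mem_iUnion, Fin.exists_fin_two]; right; exact hb
    · rw [Fin.forall_fin_two]
      exact ⟨⟨a, by left; rfl, ha⟩, ⟨b, by right; rfl, hb⟩⟩
  refine Filter.mem_of_superset (h1.mem_nhds h2) ?_
  intro A hA
  obtain ⟨⟨c, d⟩, rfl⟩ := pair_surjective A
  obtain ⟨h3, h4⟩ := hA
  have hc := h3 (show c ∈ ({c, d} : Set E) by simp)
  have hd := h3 (show d ∈ ({c, d} : Set E) by simp)
  rw [Set.mem_iUnion, Fin.exists_fin_two] at hc hd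
  rw [Fin.forall_fin_two] at h4
  have hc' : c ∈ U ∨ c ∈ V := hc
  have hd' : d ∈ U ∨ d ∈ V := hd
  have hU' : c ∈ U ∨ d ∈ U := by
    obtain ⟨x, rfl | rfl, hx⟩ := h4.1
    · left; exact hx
    · right; exact hx
  have hV' : c ∈ V ∨ d ∈ V := by
    obtain ⟨x, rfl | rfl, hx⟩ := h4.2
    · left; exact hx
    · right; exact hx
  have hcd : (c ∈ U ∧ d ∈ V) ∨ (d ∈ U ∧ c ∈ V) := by tauto
  rcases hcd with ⟨h5, h6⟩ | ⟨h5, h6⟩
  · exact ⟨(c, d), hUV ⟨h5, h6⟩, rfl⟩
  · exact ⟨(d, c), hUV ⟨h5, h6⟩, Subtype.ext (Set.pair_comm d c)⟩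

theorem pair_isQuotientMap : IsQuotientMap (pair : E × E → SymProd E 2) :=
  pair_isOpenMap.isQuotientMap pair_continuous pair_surjective

end square

/-- the function `u` on the symmetric square -/
noncomputable def U (A : SymProd Hog 2) : ℝ := uu (Function.surjInv pair_surjective A)

theorem U_pair (p : Hog × Hog) : U (pair p) = uu p := by
  unfold U
  have h1 := Function.surjInv_eq (pair_surjective (E := Hog)) (pair p)
  have h2 := congrArg Subtype.val h1
  obtain ⟨a, b⟩ := p
  generalize Function.surjInv (pair_surjective (E := Hog)) (pair (a, b)) = q at h2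
  obtain ⟨c, d⟩ := q
  have h3 : ({c, d} : Set Hog) = {a, b} := h2
  rw [Set.pair_eq_pair_iff] at h3
  rcases h3 with ⟨rfl, rfl⟩ | ⟨rfl, rfl⟩
  · rfl
  · exact uu_symm _ _

theorem U_continuous : Continuous U := by
  rw [pair_isQuotientMap.continuous_iff]
  have h1 : U ∘ pair = uu := funext U_pair
  rw [h1]
  exact uu_continuous

/-- There are a Hausdorff space `E` (a star-shaped subset of the plane) with the fixed point
property, and a continuous self-map of the second symmetric product of `E` without a fixed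
point. -/
theorem result : ∃ E : Set (ℝ × ℝ), StarConvex ℝ 0 E ∧ FixedPointProperty E ∧
    ¬ FixedPointProperty (SymProd E 2) := by
  refine ⟨Hog, ?_, hog_fpp, ?_⟩
  · rintro ⟨x, y⟩ ⟨h1, h2, m, h3⟩ a b ha hb hab
    refine ⟨?_, ?_, m, ?_⟩
    · simp only [smul_zero, zero_add, Prod.smul_fst, smul_eq_mul]
      exact mul_nonneg hb h1
    · simp only [smul_zero, zero_add, Prod.smul_fst, smul_eq_mul]
      have : b ≤ 1 := by linarith
      simp only at h1 h2
      nlinarith
    · simp only [smul_zero, zero_add, Prod.smul_fst, Prod.smul_snd, smul_eq_mul]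
      simp only at h3
      rw [h3]; ring
  · intro h
    let F : SymProd Hog 2 → SymProd Hog 2 := fun A => pair (path (U A), path (U A + 1))
    have hF : Continuous F := by
      apply pair_continuous.comp
      exact (path_continuous.comp U_continuous).prodMk
        (path_continuous.comp (U_continuous.add continuous_const))
    obtain ⟨A, hA⟩ := h F hF
    have h1 : U (F A) = U A := by rw [hA]
    have h2 : U (F A) = uu (path (U A), path (U A + 1)) := U_pair _
    have h3 := uu_path (U A)
    linarith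

end Pool.Agent.Results.MP_3eb21e_gt.SymmetricSquareNoFpp
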